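import Pool.Agent.TH839.UH.Stm

/-! # UH-COMM: the heat flow commutes with differentiation -/

set_option autoImplicit false

open Complex MeasureTheory Filter Topology Set
open scoped ComplexConjugate

namespace Pool.Agent.TH194.UH

open Pool.Agent.W169.HF

/-- the derivative of a slow function is slow -/
theorem slow_deriv {f : ℂ → ℂ} (h : Slow f) : Slow (deriv f) := by
  have hd : Differentiable ℂ f := h.1
  refine ⟨hd.deriv, fun δ hδ => ?_⟩
  obtain ⟨K, hK, hb⟩ := h.2 (δ / 2) (by positivity)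
  refine ⟨K * Real.exp δ, by positivity, fun z => ?_⟩
  have h3 := Complex.norm_deriv_le_of_forall_mem_sphere_norm_le (c := z) (R := 1)
    (C := K * Real.exp δ * Real.exp (δ * ‖z‖ ^ 2)) (f := f) one_pos hd.diffContOnCl
    (fun w hw => ?_)
  · simpa using h3
  · refine (hb w).trans ?_
    rw [mul_assoc, ← Real.exp_add]
    refine mul_le_mul_of_nonneg_left (Real.exp_le_exp.2 ?_) hK.le
    rw [mem_sphere_iff_norm] at hw
    have h4 : ‖w‖ ≤ ‖z‖ + 1 := by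
      have := norm_add_le (w - z) z
      rw [sub_add_cancel, hw] at this
      linarith
    have h5 : ‖w‖ ^ 2 ≤ (‖z‖ + 1) ^ 2 := pow_le_pow_left₀ (norm_nonneg w) h4 2
    have h6 : (‖z‖ + 1) ^ 2 ≤ 2 * ‖z‖ ^ 2 + 2 := by nlinarith [sq_nonneg (‖z‖ - 1)]
    nlinarith

/-- the Gaussian bound -/
theorem gbound {f : ℂ → ℂ} (h : Slow f) {t : ℝ} (ht : 0 ≤ t) (s : ℂ) : ∃ C : ℝ, 0 < C ∧
    ∀ x ∈ Metric.ball s 1, ∀ v : ℝ,
      ‖((Real.exp (-v ^ 2) : ℝ) : ℂ) * f (x + ((2 * Real.sqrt t * v : ℝ) : ℂ))‖ ≤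
        C * Real.exp (-(1 / 2) * v ^ 2) := by
  obtain ⟨δ, hδ⟩ : ∃ δ : ℝ, δ = 1 / (16 * (t + 1)) := ⟨_, rfl⟩
  have hδ0 : 0 < δ := by rw [hδ]; positivity
  have hδt : δ * (8 * t) ≤ 1 / 2 := by
    rw [hδ, div_mul_eq_mul_div, div_le_div_iff₀ (by positivity) (by norm_num)]
    linarith
  obtain ⟨K, hK, hb⟩ := h.2 δ hδ0
  refine ⟨K * Real.exp (δ * (2 * (‖s‖ + 1) ^ 2)), by positivity, fun x hx v => ?_⟩
  rw [norm_mul, Complex.norm_real, Real.norm_eq_abs, abs_of_pos (Real.exp_pos _)]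
  have h1 : ‖x + ((2 * Real.sqrt t * v : ℝ) : ℂ)‖ ^ 2 ≤ 2 * (‖s‖ + 1) ^ 2 + 8 * t * v ^ 2 := by
    have h2 : ‖x‖ ≤ ‖s‖ + 1 := by
      rw [Metric.mem_ball, dist_eq_norm] at hx
      have := norm_add_le (x - s) s
      rw [sub_add_cancel] at this
      linarith
    have h3 : ‖((2 * Real.sqrt t * v : ℝ) : ℂ)‖ ^ 2 = 4 * t * v ^ 2 := by
      rw [Complex.norm_real, Real.norm_eq_abs, sq_abs, mul_pow, mul_pow, Real.sq_sqrt ht]
      ring
    have h4 := norm_add_le x ((2 * Real.sqrt t * v : ℝ) : ℂ)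
    have h5 : ‖x + ((2 * Real.sqrt t * v : ℝ) : ℂ)‖ ^ 2 ≤
        (‖x‖ + ‖((2 * Real.sqrt t * v : ℝ) : ℂ)‖) ^ 2 := pow_le_pow_left₀ (norm_nonneg _) h4 2
    have h6 : ‖x‖ ^ 2 ≤ (‖s‖ + 1) ^ 2 := pow_le_pow_left₀ (norm_nonneg _) h2 2
    nlinarith [sq_nonneg (‖x‖ - ‖((2 * Real.sqrt t * v : ℝ) : ℂ)‖)]
  calc Real.exp (-v ^ 2) * ‖f (x + ((2 * Real.sqrt t * v : ℝ) : ℂ))‖
      ≤ Real.exp (-v ^ 2) * (K * Real.exp (δ * ‖x + ((2 * Real.sqrt t * v : ℝ) : ℂ)‖ ^ 2)) :=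
        mul_le_mul_of_nonneg_left (hb _) (Real.exp_pos _).le
    _ = K * Real.exp (-v ^ 2 + δ * ‖x + ((2 * Real.sqrt t * v : ℝ) : ℂ)‖ ^ 2) := by
        rw [Real.exp_add]
        ring
    _ ≤ K * Real.exp (δ * (2 * (‖s‖ + 1) ^ 2) + -(1 / 2) * v ^ 2) := by
        refine mul_le_mul_of_nonneg_left (Real.exp_le_exp.2 ?_) hK.le
        have h2 : δ * ‖x + ((2 * Real.sqrt t * v : ℝ) : ℂ)‖ ^ 2 ≤
            δ * (2 * (‖s‖ + 1) ^ 2 + 8 * t * v ^ 2) := mul_le_mul_of_nonneg_left h1 hδ0.le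
        have h3 : δ * (8 * t) * v ^ 2 ≤ 1 / 2 * v ^ 2 :=
          mul_le_mul_of_nonneg_right hδt (sq_nonneg v)
        nlinarith
    _ = _ := by
        rw [Real.exp_add]
        ring

theorem cont_integrand {f : ℂ → ℂ} (h : Continuous f) (t : ℝ) (s : ℂ) :
    Continuous fun v : ℝ => ((Real.exp (-v ^ 2) : ℝ) : ℂ) * f (s + ((2 * Real.sqrt t * v : ℝ) : ℂ)) := by
  fun_prop

theorem int_gauss (C : ℝ) : Integrable fun v : ℝ => C * Real.exp (-(1 / 2) * v ^ 2) :=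
  (integrable_exp_neg_mul_sq (by norm_num)).const_mul C

/-- the heat flow commutes with one derivative -/
theorem deriv_heat {f : ℂ → ℂ} (h : Slow f) {t : ℝ} (ht : 0 ≤ t) :
    deriv (heat t f) = heat t (deriv f) := by
  funext s
  have hd : Differentiable ℂ f := h.1
  have hs' := slow_deriv h
  obtain ⟨C, hC, hb⟩ := gbound h ht s
  obtain ⟨C', hC', hb'⟩ := gbound hs' ht s
  have key := hasDerivAt_integral_of_dominated_loc_of_deriv_le (μ := (volume : Measure ℝ))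
    (F := fun (x : ℂ) (v : ℝ) =>
      ((Real.exp (-v ^ 2) : ℝ) : ℂ) * f (x + ((2 * Real.sqrt t * v : ℝ) : ℂ)))
    (F' := fun (x : ℂ) (v : ℝ) =>
      ((Real.exp (-v ^ 2) : ℝ) : ℂ) * deriv f (x + ((2 * Real.sqrt t * v : ℝ) : ℂ)))
    (x₀ := s) (s := Metric.ball s 1) (bound := fun v => C' * Real.exp (-(1 / 2) * v ^ 2))
    (Metric.ball_mem_nhds s one_pos)
    (Filter.Eventually.of_forall fun x => (cont_integrand hd.continuous t x).aestronglyMeasurable)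
    ((int_gauss C).mono' (cont_integrand hd.continuous t s).aestronglyMeasurable
      (Filter.Eventually.of_forall fun v => hb s (Metric.mem_ball_self one_pos) v))
    (cont_integrand hd.deriv.continuous t s).aestronglyMeasurable
    (Filter.Eventually.of_forall fun v x hx => hb' x hx v)
    (int_gauss C')
    (Filter.Eventually.of_forall fun v x _ => ?_)
  · have h1 : HasDerivAt (heat t f) (heat t (deriv f) s) s :=
      key.2.const_mul (((1 / Real.sqrt Real.pi : ℝ) : ℂ))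
    exact h1.deriv
  · exact ((hd _).hasDerivAt.comp_add_const x _).const_mul _

/-- UH-COMM -/
theorem comm : Pool.Agent.TH839.UH.S_COMM := by
  intro f hf t ht n
  induction n generalizing f with
  | zero => exact ⟨by simpa using hf, by simp⟩
  | succ n ih =>
    rw [iteratedDeriv_succ', iteratedDeriv_succ', deriv_heat hf ht]
    exact ih (deriv f) (slow_deriv hf)

end Pool.Agent.TH194.UH
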