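import Pool.Agent.TH839.UH.Stm
import Pool.Agent.H353R7.F4
import Pool.Agent.W351.HF.TC

/-! # UH-ZER: two-sided bounds with slope `n` give zeros of the `n`-th derivative on the line -/

set_option autoImplicit false

open Complex MeasureTheory Filter Topology Set
open scoped ComplexConjugate

namespace Pool.Agent.TH194.UH

open Pool.Agent.W169.HF

/-- local bounds for the logarithmic derivative and for its derivative -/
theorem logbd {H : ℂ → ℂ} {u : ℂ} {n A r G : ℝ} (hH : Differentiable ℂ H) (hA : 0 < A) (hr : 0 < r)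
    (hG : 0 < G)
    (up : ∀ w ∈ Metric.ball (0 : ℂ) r, ‖H (u + w)‖ ≤ G * Real.exp (n * (u + w).re + A))
    (lo : ∀ w ∈ Metric.ball (0 : ℂ) r, G * Real.exp (n * (u + w).re - A) ≤ ‖H (u + w)‖) :
    ‖logDeriv H u - n‖ ≤ 16 * A / r ∧
      ∃ d : ℂ, HasDerivAt (logDeriv H) d u ∧ ‖d‖ ≤ 64 * A / r ^ 2 := by
  have hne : ∀ w ∈ Metric.ball (0 : ℂ) r, H (u + w) ≠ 0 := fun w hw h0 => by
    have h1 := lo w hw
    rw [h0, norm_zero] at h1
    have h2 : 0 < G * Real.exp (n * (u + w).re - A) := by positivity
    linarith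
  have h00 : (0 : ℂ) ∈ Metric.ball (0 : ℂ) r := Metric.mem_ball_self hr
  have hu0 : H u ≠ 0 := by simpa using hne 0 h00
  have hkd : Differentiable ℂ (fun w : ℂ => H (u + w) * cexp (-(n * w)) / H u) := by
    have h1 : Differentiable ℂ (fun w : ℂ => H (u + w)) := hH.comp (by fun_prop)
    exact (h1.mul (by fun_prop)).div_const _
  obtain ⟨h, hd, h0, hkh⟩ := Pool.Agent.W351.HF.exlog (k := fun w : ℂ => H (u + w) *
    cexp (-(n * w)) / H u) hr hkd.differentiableOn
    (fun w hw => div_ne_zero (mul_ne_zero (hne w hw) (Complex.exp_ne_zero _)) hu0)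
    (by simp [hu0])
  have hre : ∀ w ∈ Metric.ball (0 : ℂ) r, (h w).re ≤ 2 * A := by
    intro w hw
    have h1 : ‖H (u + w) * cexp (-(n * w)) / H u‖ = Real.exp (h w).re := by
      rw [hkh w hw, Complex.norm_exp]
    rw [norm_div, norm_mul, Complex.norm_exp] at h1
    have h2 := up w hw
    have h3 := lo 0 h00
    rw [add_zero] at h3
    have h4 : 0 < ‖H u‖ := norm_pos_iff.2 hu0
    rw [div_eq_iff h4.ne'] at h1
    have h5 : (-((n : ℂ) * w)).re = -(n * w.re) := by
      rw [neg_re, Complex.re_ofReal_mul]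
    rw [h5] at h1
    have h6 : Real.exp (h w).re * (G * Real.exp (n * u.re - A)) ≤
        G * Real.exp (n * (u + w).re + A) * Real.exp (-(n * w.re)) := by
      calc Real.exp (h w).re * (G * Real.exp (n * u.re - A)) ≤ Real.exp (h w).re * ‖H u‖ :=
            mul_le_mul_of_nonneg_left h3 (Real.exp_pos _).le
        _ = ‖H (u + w)‖ * Real.exp (-(n * w.re)) := h1.symm
        _ ≤ _ := mul_le_mul_of_nonneg_right h2 (Real.exp_pos _).le
    have h7 : G * Real.exp ((h w).re + (n * u.re - A)) ≤
        G * Real.exp ((n * (u + w).re + A) + -(n * w.re)) := by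
      rw [Real.exp_add, Real.exp_add (n * (u + w).re + A)]
      calc _ = Real.exp (h w).re * (G * Real.exp (n * u.re - A)) := by ring
        _ ≤ _ := h6
        _ = _ := by ring
    have h8 := Real.exp_le_exp.1 (le_of_mul_le_mul_left h7 hG)
    rw [add_re] at h8
    nlinarith
  have hb1 : ∀ w : ℂ, ‖w‖ ≤ r / 2 → ‖h w‖ ≤ 4 * A := by
    intro w hw
    have h1 := borelCaratheodory_zero (M := 2 * A) (by linarith) hd (fun z hz => hre z hz) hr
      (z := w) (by rw [mem_ball_zero_iff]; linarith) h0
    refine h1.trans ?_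
    rw [div_le_iff₀ (by linarith)]
    nlinarith [norm_nonneg w]
  have hb2 : ∀ w : ℂ, ‖w‖ ≤ r / 4 → ‖deriv h w‖ ≤ 16 * A / r := by
    intro w hw
    have hsub : Metric.closedBall w (r / 4) ⊆ Metric.ball 0 r := by
      intro z hz
      rw [Metric.mem_closedBall, dist_eq_norm] at hz
      rw [mem_ball_zero_iff]
      have h2 := norm_add_le (z - w) w
      rw [sub_add_cancel] at h2
      linarith
    have h1 := Complex.norm_deriv_le_of_forall_mem_sphere_norm_le (c := w) (R := r / 4)
      (C := 4 * A) (f := h) (by linarith)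
      ((hd.mono ((Metric.closure_ball_subset_closedBall).trans hsub)).diffContOnCl)
      (fun z hz => ?_)
    · refine h1.trans (le_of_eq ?_)
      field_simp
      ring
    · apply hb1
      rw [mem_sphere_iff_norm] at hz
      have h2 := norm_add_le (z - w) w
      rw [sub_add_cancel] at h2
      linarith
  have hdd : DifferentiableOn ℂ (deriv h) (Metric.ball 0 r) := hd.deriv Metric.isOpen_ball
  have hb3 : ‖deriv (deriv h) 0‖ ≤ 64 * A / r ^ 2 := by
    have hsub : Metric.closedBall (0 : ℂ) (r / 4) ⊆ Metric.ball 0 r :=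
      Metric.closedBall_subset_ball (by linarith)
    have h1 := Complex.norm_deriv_le_of_forall_mem_sphere_norm_le (c := (0 : ℂ)) (R := r / 4)
      (C := 16 * A / r) (f := deriv h) (by linarith)
      ((hdd.mono ((Metric.closure_ball_subset_closedBall).trans hsub)).diffContOnCl)
      (fun z hz => hb2 z ?_)
    · refine h1.trans (le_of_eq ?_)
      field_simp
      ring
    · rw [mem_sphere_zero_iff_norm] at hz
      exact hz.le
  have hlog : ∀ w ∈ Metric.ball (0 : ℂ) r, logDeriv H (u + w) = n + deriv h w := by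
    intro w hw
    have hnh := Metric.isOpen_ball.mem_nhds hw
    have h1 : (fun z => H (u + z)) =ᶠ[𝓝 w] fun z => H u * cexp (n * z + h z) := by
      filter_upwards [hnh] with z hz
      have h2 := hkh z hz
      rw [div_eq_iff hu0] at h2
      rw [Complex.exp_add, show H u * (cexp (n * z) * cexp (h z)) =
        cexp (h z) * H u * cexp (n * z) by ring, ← h2, mul_assoc, ← Complex.exp_add]
      simp
    have h3 : HasDerivAt (fun z => H (u + z)) (deriv H (u + w)) w := by
      have h4 := (hH (u + w)).hasDerivAt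
      exact h4.comp_const_add u w
    have h5 : HasDerivAt (fun z => H u * cexp (n * z + h z))
        (H u * (cexp (n * w + h w) * (n * 1 + deriv h w))) w := by
      have h6 := (hd.differentiableAt hnh).hasDerivAt
      exact ((((hasDerivAt_id w).const_mul (n : ℂ)).add h6).cexp).const_mul (H u)
    have h7 := (h3.congr_of_eventuallyEq h1.symm).unique h5
    have h8 : H (u + w) = H u * cexp (n * w + h w) := h1.self_of_nhds
    rw [logDeriv_apply, h7, h8]
    have h9 := Complex.exp_ne_zero (n * w + h w)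
    field_simp
  have e0 : logDeriv H u = n + deriv h 0 := by
    have := hlog 0 h00
    rwa [add_zero] at this
  refine ⟨?_, deriv (deriv h) 0, ?_, hb3⟩
  · rw [e0, add_sub_cancel_left]
    exact hb2 0 (by rw [norm_zero]; linarith)
  · have h1 : HasDerivAt (deriv h) (deriv (deriv h) 0) (u - u) := by
      rw [sub_self]
      exact (hdd.differentiableAt (Metric.isOpen_ball.mem_nhds h00)).hasDerivAt
    have h2 : HasDerivAt (fun z => (n : ℂ) + deriv h (z - u)) (deriv (deriv h) 0) u :=
      (h1.comp_sub_const u u).const_add _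
    refine h2.congr_of_eventuallyEq ?_
    filter_upwards [Metric.ball_mem_nhds u hr] with z hz
    have h3 := hlog (z - u) (by
      rw [mem_ball_zero_iff, ← dist_eq_norm]
      exact hz)
    rwa [add_sub_cancel] at h3

/-- UH-ZER -/
theorem zer : Pool.Agent.TH839.UH.S_ZER := by
  refine ⟨1 / 40000000000, 1000000000000, by norm_num, ?_⟩
  intro n G H hn hH hfe hG hup hlo x hx hz
  obtain ⟨κ, hκ⟩ : ∃ κ : ℝ, κ = 1 / 40000000000 := ⟨_, rfl⟩
  rw [← hκ] at hup hlo
  have hn0 : (0 : ℝ) < n := by linarith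
  have hkn : 0 < κ * n := by
    rw [hκ]
    positivity
  have key : ∀ u : ℂ, 1 - 1 / 4 ≤ u.re → u.re ≤ 2 + 2 → |u.im| ≤ 2 →
      H u ≠ 0 ∧ ‖logDeriv H u - n‖ ≤ 16 * (κ * n) / (1 / 8) ∧
      ∃ d : ℂ, HasDerivAt (logDeriv H) d u ∧ ‖d‖ ≤ 64 * (κ * n) / (1 / 8) ^ 2 := by
    intro u h1 h2 h3
    have hin : ∀ w ∈ Metric.ball (0 : ℂ) (1 / 8), 5 / 8 ≤ (u + w).re ∧ (u + w).re ≤ 5 ∧
        |(u + w).im| ≤ 5 := by
      intro w hw
      rw [mem_ball_zero_iff] at hw
      have h4 := abs_le.1 ((Complex.abs_re_le_norm w).trans hw.le)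
      have h5 := abs_le.1 ((Complex.abs_im_le_norm w).trans hw.le)
      have h6 := abs_le.1 h3
      rw [add_re, add_im]
      refine ⟨by linarith, by linarith, ?_⟩
      rw [abs_le]
      constructor <;> linarith
    have h4 := logbd (u := u) (n := n) (A := κ * n) (r := 1 / 8) hH hkn (by norm_num) hG
      (fun w hw => by
        obtain ⟨a, b, c⟩ := hin w hw
        have h5 := hup (u + w) (by rw [abs_of_nonneg (by linarith)]; exact b) c
        rwa [abs_of_nonneg (by linarith : (0 : ℝ) ≤ (u + w).re), max_eq_left a] at h5)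
      (fun w hw => by
        obtain ⟨a, b, c⟩ := hin w hw
        exact hlo (u + w) a b c)
    refine ⟨fun h0 => ?_, ?_, ?_⟩
    · have h5 := hlo u (by linarith) (by linarith) (by linarith)
      rw [h0, norm_zero] at h5
      have h6 : 0 < G * Real.exp (n * u.re - κ * n) := by positivity
      linarith
    · exact_mod_cast h4.1
    · exact h4.2
  have hcc : ∀ u : ℂ, H.comp (fun s => s - 1 / 2) (H353.E.cc 0 + u) = H u := by
    intro u
    simp [H353.E.cc]
  have L : H353.F.Loc (H.comp fun s => s - 1 / 2) (logDeriv H) n (1 / 4) (1 / 4000000) G 0 2 := by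
    refine ⟨hH.comp (by fun_prop), ?_, ?_, ?_, ?_, ?_, ?_, hG, by norm_num, by norm_num,
      by norm_num, by norm_num, by norm_num, by linarith, ?_⟩
    · obtain ⟨ε, hε, h1⟩ := hfe
      refine ⟨ε, hε, fun s => ?_⟩
      simp only [Function.comp]
      rw [h1 (s - 1 / 2)]
      congr 3
      have h2 : conj (1 / 2 : ℂ) = 1 / 2 := by
        have h3 := Complex.conj_ofReal (1 / 2)
        push_cast at h3
        exact h3
      rw [map_sub, h2]
      ring
    · intro u h1 h2 h3
      rw [hcc]
      have h4 := (key u h1 h2 h3).1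
      rw [logDeriv_apply, mul_div_cancel₀ _ h4]
      have h5 : HasDerivAt H (deriv H u) (H353.E.cc 0 + u - 1 / 2) := by
        have : H353.E.cc 0 + u - 1 / 2 = u := by simp [H353.E.cc]
        rw [this]
        exact (hH u).hasDerivAt
      exact h5.comp_sub_const (H353.E.cc 0 + u) (1 / 2)
    · intro u h1 h2 h3
      refine (key u h1 h2 h3).2.1.trans ?_
      rw [hκ]
      linarith
    · intro u h1 h2 h3
      obtain ⟨d, h4, h5⟩ := (key u h1 h2 h3).2.2
      refine ⟨d, h4, h5.trans ?_⟩
      rw [hκ, div_le_iff₀ (by norm_num)]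
      norm_num
      linarith
    · intro u h1 h2
      rw [hcc]
      refine (hup u (by linarith) (by linarith)).trans ?_
      refine mul_le_mul_of_nonneg_left (Real.exp_le_exp.2 ?_) hG.le
      have h3 : max |u.re| (5 / 8) ≤ max |u.re| (1 - 1 / 4) := max_le_max le_rfl (by norm_num)
      have h4 : (n : ℝ) * max |u.re| (5 / 8) ≤ n * max |u.re| (1 - 1 / 4) :=
        mul_le_mul_of_nonneg_left h3 hn0.le
      have h5 : κ * n ≤ 1 / 4000000 * n := by
        rw [hκ]
        linarith
      linarith
    · intro x h1 h2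
      rw [hcc]
      refine le_trans ?_ (hlo _ ?_ ?_ ?_)
      · refine mul_le_mul_of_nonneg_left (Real.exp_le_exp.2 ?_) hG.le
        rw [ofReal_re]
        have h5 : κ * n ≤ 1 / 4000000 * n := by
          rw [hκ]
          linarith
        linarith
      · rw [ofReal_re]
        linarith
      · rw [ofReal_re]
        linarith
      · rw [ofReal_im]
        norm_num
    · refine le_trans ?_ hn
      norm_num
  have hit : ∀ m : ℕ, iteratedDeriv m (H.comp fun s => s - 1 / 2) ((x : ℂ) + 1 / 2) =
      iteratedDeriv m H x := by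
    intro m
    have h1 := iteratedDeriv_comp_sub_const m H (1 / 2)
    have h2 := congrFun h1 ((x : ℂ) + 1 / 2)
    rw [add_sub_cancel_right] at h2
    exact h2
  have h1 := H353.F.Loc.zeros L (s := (x : ℂ) + 1 / 2) (by simp) (by simpa using hx)
    (by rw [hit]; exact hz)
  rw [hit] at h1
  refine ⟨?_, h1.2⟩
  have h2 := h1.1
  simp at h2
  linarith

end Pool.Agent.TH194.UH
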